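import Mathlib

set_option autoImplicit false

/-!
# Stable submonoids of a free monoid and the free hull (MP_374efc_lc, part D3)

Words are elements of `FreeMonoid α`.  A submonoid `S` is stable if `u, v, u * w, w * v ∈ S`
implies `w ∈ S`.  The hull of a set `X` is the smallest stable submonoid which contains `X`.
-/

namespace Pool.MP374W

section general

variable {M : Type*} [Monoid M]

/-- Stable submonoids. -/
def Stable (S : Submonoid M) : Prop :=
  ∀ u v w : M, u ∈ S → v ∈ S → u * w ∈ S → w * v ∈ S → w ∈ S

/-- The smallest stable submonoid which contains `X`. -/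
def hull (X : Set M) : Submonoid M := sInf {S | X ⊆ S ∧ Stable S}

theorem subset_hull (X : Set M) : X ⊆ hull X := by
  intro x hx
  rw [hull, SetLike.mem_coe, Submonoid.mem_sInf]
  intro S hS
  exact hS.1 hx

theorem stable_hull (X : Set M) : Stable (hull X) := by
  intro u v w hu hv huw hwv
  rw [hull, Submonoid.mem_sInf] at *
  intro S hS
  exact hS.2 u v w (hu S hS) (hv S hS) (huw S hS) (hwv S hS)

theorem hull_le {X : Set M} {S : Submonoid M} (hX : X ⊆ S) (hS : Stable S) : hull X ≤ S :=
  sInf_le ⟨hX, hS⟩

theorem hull_mono {X Y : Set M} (h : X ⊆ Y) : hull X ≤ hull Y :=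
  hull_le (h.trans (subset_hull Y)) (stable_hull Y)

theorem closure_le_hull (X : Set M) : Submonoid.closure X ≤ hull X :=
  Submonoid.closure_le.2 (subset_hull X)

theorem hull_closure (X : Set M) : hull (Submonoid.closure X : Set M) = hull X := by
  apply le_antisymm
  · exact hull_le (closure_le_hull X) (stable_hull X)
  · exact hull_mono Submonoid.subset_closure

theorem stable_comap {M' : Type*} [Monoid M'] (f : M →* M') {S : Submonoid M'} (hS : Stable S) :
    Stable (S.comap f) := by
  intro u v w hu hv huw hwv
  simp only [Submonoid.mem_comap, map_mul] at *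
  exact hS _ _ _ hu hv huw hwv

/-- If `f` maps `X` into the hull of `X`, then it maps the hull into itself. -/
theorem map_hull_le {M' : Type*} [Monoid M'] (f : M →* M') {X : Set M} {Y : Set M'}
    (h : ∀ x ∈ X, f x ∈ hull Y) {u : M} (hu : u ∈ hull X) : f u ∈ hull Y := by
  have : hull X ≤ (hull Y).comap f := hull_le h (stable_comap f (stable_hull Y))
  exact this hu

/-- The preimage of a subgroup is stable. -/
theorem stable_comap_subgroup {G : Type*} [Group G] (f : M →* G) (K : Subgroup G) :
    Stable (K.toSubmonoid.comap f) := by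
  intro u v w hu hv huw hwv
  simp only [Submonoid.mem_comap, map_mul, Subgroup.mem_toSubmonoid] at *
  exact (K.mul_mem_cancel_left hu).1 huw

/-- If the hull of `X` is everything, the images of `X` in a group generate the group generated
by all images. -/
theorem group_of_hull_eq_top {G : Type*} [Group G] (f : M →* G) {X : Set M}
    (hX : hull X = ⊤) (u : M) : f u ∈ Subgroup.closure (f '' X) := by
  have : hull X ≤ (Subgroup.closure (f '' X)).toSubmonoid.comap f := by
    apply hull_le _ (stable_comap_subgroup f _)
    intro x hx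
    exact Subgroup.subset_closure ⟨x, hx, rfl⟩
  rw [hX] at this
  exact this (Submonoid.mem_top u)

end general

section free

variable {α : Type*}

/-- Atoms (the base) of a submonoid. -/
def Atom (S : Submonoid (FreeMonoid α)) (b : FreeMonoid α) : Prop :=
  b ∈ S ∧ b ≠ 1 ∧ ∀ u v, u ∈ S → v ∈ S → u * v = b → u = 1 ∨ v = 1

theorem len_pos {u : FreeMonoid α} (h : u ≠ 1) : 0 < u.length := by
  rcases Nat.eq_zero_or_pos u.length with h0 | h0
  · exact absurd (FreeMonoid.length_eq_zero.1 h0) h
  · exact h0

theorem mul_cases {a b c d : FreeMonoid α} (h : a * b = c * d) :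
    (∃ t, c = a * t ∧ b = t * d) ∨ (∃ t, a = c * t ∧ d = t * b) := by
  have h' : a.toList ++ b.toList = c.toList ++ d.toList := by
    rw [← FreeMonoid.toList_mul, ← FreeMonoid.toList_mul, h]
  rcases List.append_eq_append_iff.1 h' with ⟨t, h1, h2⟩ | ⟨t, h1, h2⟩
  · left
    exact ⟨FreeMonoid.ofList t, by
      apply FreeMonoid.toList.injective
      simpa using h1, by
      apply FreeMonoid.toList.injective
      simpa using h2⟩
  · right
    exact ⟨FreeMonoid.ofList t, by
      apply FreeMonoid.toList.injective
      simpa using h1, by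
      apply FreeMonoid.toList.injective
      simpa using h2⟩

/-- In a stable submonoid the first atom is unique. -/
theorem atom_left_unique {S : Submonoid (FreeMonoid α)} (hS : Stable S) {b c s t : FreeMonoid α}
    (hb : Atom S b) (hc : Atom S c) (hs : s ∈ S) (ht : t ∈ S) (h : b * s = c * t) : b = c := by
  rcases mul_cases h with ⟨r, h1, h2⟩ | ⟨r, h1, h2⟩
  · have hr : r ∈ S := hS b t r hb.1 ht (h1 ▸ hc.1) (h2 ▸ hs)
    rcases hc.2.2 b r hb.1 hr h1.symm with h3 | h3
    · exact absurd h3 hb.2.1
    · rw [h1, h3, mul_one]
  · have hr : r ∈ S := hS c s r hc.1 hs (h1 ▸ hb.1) (h2 ▸ ht)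
    rcases hb.2.2 c r hc.1 hr h1.symm with h3 | h3
    · exact absurd h3 hc.2.1
    · rw [h1, h3, mul_one]

/-- In a stable submonoid the last atom is unique. -/
theorem atom_right_unique {S : Submonoid (FreeMonoid α)} (hS : Stable S)
    {b c s t : FreeMonoid α} (hb : Atom S b) (hc : Atom S c) (hs : s ∈ S) (ht : t ∈ S)
    (h : s * b = t * c) : b = c := by
  rcases mul_cases h with ⟨r, h1, h2⟩ | ⟨r, h1, h2⟩
  · -- t = s * r, b = r * c
    have hr : r ∈ S := hS s c r hs hc.1 (h1 ▸ ht) (h2 ▸ hb.1)
    rcases hb.2.2 r c hr hc.1 h2.symm with h3 | h3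
    · rw [h2, h3, one_mul]
    · exact absurd h3 hc.2.1
  · have hr : r ∈ S := hS t b r ht hb.1 (h1 ▸ hs) (h2 ▸ hc.1)
    rcases hc.2.2 r b hr hb.1 h2.symm with h3 | h3
    · rw [h2, h3, one_mul]
    · exact absurd h3 hb.2.1

/-- Every nontrivial element begins with an atom. -/
theorem exists_atom_left {S : Submonoid (FreeMonoid α)} {u : FreeMonoid α} (hu : u ∈ S)
    (h1 : u ≠ 1) : ∃ b s, Atom S b ∧ s ∈ S ∧ u = b * s := by
  induction hn : u.length using Nat.strong_induction_on generalizing u with
  | _ n ih =>
    by_cases h : Atom S u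
    · exact ⟨u, 1, h, S.one_mem, (mul_one u).symm⟩
    · have : ∃ x y, x ∈ S ∧ y ∈ S ∧ x * y = u ∧ x ≠ 1 ∧ y ≠ 1 := by
        by_contra hcon
        apply h
        refine ⟨hu, h1, ?_⟩
        intro x y hx hy hxy
        by_contra hc
        rw [not_or] at hc
        exact hcon ⟨x, y, hx, hy, hxy, hc.1, hc.2⟩
      obtain ⟨x, y, hx, hy, hxy, hx1, hy1⟩ := this
      have hlen : x.length < n := by
        rw [← hn, ← hxy, FreeMonoid.length_mul]
        have := len_pos hy1
        omega
      obtain ⟨b, s, hb, hs, hbs⟩ := ih _ hlen hx hx1 rfl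
      exact ⟨b, s * y, hb, S.mul_mem hs hy, by rw [← hxy, hbs, mul_assoc]⟩

/-- Every nontrivial element ends with an atom. -/
theorem exists_atom_right {S : Submonoid (FreeMonoid α)} {u : FreeMonoid α} (hu : u ∈ S)
    (h1 : u ≠ 1) : ∃ b s, Atom S b ∧ s ∈ S ∧ u = s * b := by
  induction hn : u.length using Nat.strong_induction_on generalizing u with
  | _ n ih =>
    by_cases h : Atom S u
    · exact ⟨u, 1, h, S.one_mem, (one_mul u).symm⟩
    · have : ∃ x y, x ∈ S ∧ y ∈ S ∧ x * y = u ∧ x ≠ 1 ∧ y ≠ 1 := by
        by_contra hcon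
        apply h
        refine ⟨hu, h1, ?_⟩
        intro x y hx hy hxy
        by_contra hc
        rw [not_or] at hc
        exact hcon ⟨x, y, hx, hy, hxy, hc.1, hc.2⟩
      obtain ⟨x, y, hx, hy, hxy, hx1, hy1⟩ := this
      have hlen : y.length < n := by
        rw [← hn, ← hxy, FreeMonoid.length_mul]
        have := len_pos hx1
        omega
      obtain ⟨b, s, hb, hs, hbs⟩ := ih _ hlen hy hy1 rfl
      exact ⟨b, x * s, hb, S.mul_mem hx hs, by rw [← hxy, hbs, mul_assoc]⟩

/-- The free hull property: every atom of the hull of `X` is the first atom of an element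
of `X`. -/
theorem hull_atom_left {X : Set (FreeMonoid α)} {b : FreeMonoid α} (hb : Atom (hull X) b) :
    ∃ x ∈ X, ∃ s ∈ hull X, x = b * s := by
  by_contra hcon
  push Not at hcon
  let S' : Submonoid (FreeMonoid α) :=
    { carrier := {u | u ∈ hull X ∧ ∀ s ∈ hull X, u ≠ b * s}
      one_mem' := by
        refine ⟨(hull X).one_mem, ?_⟩
        intro s _ h
        have : (1 : FreeMonoid α).length = (b * s).length := by rw [h]
        rw [FreeMonoid.length_mul] at this
        have h2 := len_pos hb.2.1
        simp at this
        omega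
      mul_mem' := by
        rintro u v ⟨hu, hu'⟩ ⟨hv, hv'⟩
        refine ⟨(hull X).mul_mem hu hv, ?_⟩
        intro s hs h
        by_cases h1 : u = 1
        · rw [h1, one_mul] at h
          exact hv' s hs h
        · obtain ⟨c, t, hc, ht, hct⟩ := exists_atom_left hu h1
          have : c = b := by
            apply atom_left_unique (stable_hull X) hc hb ((hull X).mul_mem ht hv) hs
            rw [← mul_assoc, ← hct, h]
          exact hu' t ht (this ▸ hct) }
  have hst : Stable S' := by
    rintro u v w ⟨hu, _⟩ ⟨hv, _⟩ ⟨huw, _⟩ ⟨hwv, hwv'⟩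
    have hw : w ∈ hull X := stable_hull X u v w hu hv huw hwv
    refine ⟨hw, ?_⟩
    intro s hs h
    exact hwv' (s * v) ((hull X).mul_mem hs hv) (by rw [h, mul_assoc])
  have hX : X ⊆ S' := fun x hx => ⟨subset_hull X hx, fun s hs => hcon x hx s hs⟩
  have := (hull_le hX hst) hb.1
  exact this.2 1 (hull X).one_mem (mul_one b).symm

/-- The mirror image of `hull_atom_left`. -/
theorem hull_atom_right {X : Set (FreeMonoid α)} {b : FreeMonoid α} (hb : Atom (hull X) b) :
    ∃ x ∈ X, ∃ s ∈ hull X, x = s * b := by
  by_contra hcon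
  push Not at hcon
  let S' : Submonoid (FreeMonoid α) :=
    { carrier := {u | u ∈ hull X ∧ ∀ s ∈ hull X, u ≠ s * b}
      one_mem' := by
        refine ⟨(hull X).one_mem, ?_⟩
        intro s _ h
        have : (1 : FreeMonoid α).length = (s * b).length := by rw [h]
        rw [FreeMonoid.length_mul] at this
        have h2 := len_pos hb.2.1
        simp at this
        omega
      mul_mem' := by
        rintro u v ⟨hu, hu'⟩ ⟨hv, hv'⟩
        refine ⟨(hull X).mul_mem hu hv, ?_⟩
        intro s hs h
        by_cases h1 : v = 1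
        · rw [h1, mul_one] at h
          exact hu' s hs h
        · obtain ⟨c, t, hc, ht, hct⟩ := exists_atom_right hv h1
          have : c = b := by
            apply atom_right_unique (stable_hull X) hc hb ((hull X).mul_mem hu ht) hs
            rw [mul_assoc, ← hct, h]
          exact hv' t ht (this ▸ hct) }
  have hst : Stable S' := by
    rintro u v w ⟨hu, _⟩ ⟨hv, _⟩ ⟨huw, huw'⟩ ⟨hwv, _⟩
    have hw : w ∈ hull X := stable_hull X u v w hu hv huw hwv
    refine ⟨hw, ?_⟩
    intro s hs h
    exact huw' (u * s) ((hull X).mul_mem hu hs) (by rw [h, mul_assoc])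
  have hX : X ⊆ S' := fun x hx => ⟨subset_hull X hx, fun s hs => hcon x hx s hs⟩
  have := (hull_le hX hst) hb.1
  exact this.2 1 (hull X).one_mem (one_mul b).symm

/-- The canonical morphism of the free monoid over the atoms. -/
def atomHom (S : Submonoid (FreeMonoid α)) :
    FreeMonoid {b : FreeMonoid α // Atom S b} →* FreeMonoid α :=
  FreeMonoid.lift (fun b => b.1)

@[simp] theorem atomHom_of (S : Submonoid (FreeMonoid α)) (b : {b : FreeMonoid α // Atom S b}) :
    atomHom S (FreeMonoid.of b) = b.1 := by
  simp [atomHom]

theorem atomHom_mem (S : Submonoid (FreeMonoid α)) (u) : atomHom S u ∈ S := by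
  induction u using FreeMonoid.inductionOn' with
  | one => simp
  | of_mul b u ih =>
    rw [map_mul, atomHom_of]
    exact S.mul_mem b.2.1 ih

theorem atomHom_surj (S : Submonoid (FreeMonoid α)) {u : FreeMonoid α} (hu : u ∈ S) :
    ∃ v, atomHom S v = u := by
  induction hn : u.length using Nat.strong_induction_on generalizing u with
  | _ n ih =>
    by_cases h1 : u = 1
    · exact ⟨1, by rw [h1, map_one]⟩
    · obtain ⟨b, s, hb, hs, hbs⟩ := exists_atom_left hu h1
      have hlen : s.length < n := by
        rw [← hn, hbs, FreeMonoid.length_mul]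
        have := len_pos hb.2.1
        omega
      obtain ⟨v, hv⟩ := ih _ hlen hs rfl
      exact ⟨FreeMonoid.of ⟨b, hb⟩ * v, by rw [map_mul, atomHom_of, hv, hbs]⟩

theorem atomHom_injective {S : Submonoid (FreeMonoid α)} (hS : Stable S) :
    Function.Injective (atomHom S) := by
  have key : ∀ u v, atomHom S u = atomHom S v → u = v := by
    intro u
    induction u using FreeMonoid.inductionOn' with
    | one =>
      intro v h
      induction v using FreeMonoid.inductionOn' with
      | one => rfl
      | of_mul c v _ =>
        exfalso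
        rw [map_one, map_mul, atomHom_of] at h
        have : (1 : FreeMonoid α).length = (c.1 * atomHom S v).length := by rw [h]
        rw [FreeMonoid.length_mul] at this
        have h2 := len_pos c.2.2.1
        simp at this
        omega
    | of_mul b u ih =>
      intro v h
      induction v using FreeMonoid.inductionOn' with
      | one =>
        exfalso
        rw [map_one, map_mul, atomHom_of] at h
        have : (1 : FreeMonoid α).length = (b.1 * atomHom S u).length := by rw [h]
        rw [FreeMonoid.length_mul] at this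
        have h2 := len_pos b.2.2.1
        simp at this
        omega
      | of_mul c v _ =>
        rw [map_mul, map_mul, atomHom_of, atomHom_of] at h
        have hbc : b.1 = c.1 :=
          atom_left_unique hS b.2 c.2 (atomHom_mem S u) (atomHom_mem S v) h
        have hbc' : b = c := Subtype.ext hbc
        subst hbc'
        have h3 := mul_left_cancel h
        rw [ih v h3]
  exact fun u v h => key u v h

end free

end Pool.MP374W
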