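import Mathlib
import Pool.Agent.H.MP_374efc_lc.Words.Hull

set_option autoImplicit false

/-!
# Recoding a locally catenative system over the base of the free hull (part D3)

`orb h w N = {w_0, ..., w_(N-1)}`.  If all `w_k` are products of elements of `orb h w N`, the
system `(h, w)` is recoded to a system `(g, v)` over the alphabet `Fin n` whose hull is everything;
then the first letters of `v_0, ..., v_(n-1)` are distinct and are all letters, the same holds for
the last letters, and the commutative images of `v_0, ..., v_(n-1)` are a basis.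
-/

namespace Pool.MP374W

/-- The words `w_0, ..., w_(N-1)`. -/
def orb {α : Type*} (h : FreeMonoid α →* FreeMonoid α) (w : FreeMonoid α) (N : ℕ) :
    Set (FreeMonoid α) := {x | ∃ i < N, x = h^[i] w}

/-- All words of the system are products of the first `N`. -/
def Closed {α : Type*} (h : FreeMonoid α →* FreeMonoid α) (w : FreeMonoid α) (N : ℕ) : Prop :=
  ∀ k, h^[k] w ∈ Submonoid.closure (orb h w N)

section

variable {α : Type*}

theorem orb_finite (h : FreeMonoid α →* FreeMonoid α) (w : FreeMonoid α) (N : ℕ) :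
    (orb h w N).Finite := by
  have : orb h w N = (fun i => h^[i] w) '' (Finset.range N : Set ℕ) := by
    ext x
    simp only [orb, Set.mem_ofPred_eq, Set.mem_image, Finset.mem_coe, Finset.mem_range]
    constructor
    · rintro ⟨i, hi, rfl⟩
      exact ⟨i, hi, rfl⟩
    · rintro ⟨i, hi, rfl⟩
      exact ⟨i, hi, rfl⟩
  rw [this]
  exact (Finset.finite_toSet _).image _

/-- Iterates as morphisms. -/
def itHom (h : FreeMonoid α →* FreeMonoid α) : ℕ → (FreeMonoid α →* FreeMonoid α)
  | 0 => MonoidHom.id _
  | k + 1 => (itHom h k).comp h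

theorem itHom_apply (h : FreeMonoid α →* FreeMonoid α) (k : ℕ) (u : FreeMonoid α) :
    itHom h k u = h^[k] u := by
  induction k generalizing u with
  | zero => rfl
  | succ k ih => rw [itHom, MonoidHom.comp_apply, ih, Function.iterate_succ_apply]

theorem closed_of_formula (h : FreeMonoid α →* FreeMonoid α) (w : FreeMonoid α) (N : ℕ)
    (hN : h^[N] w ∈ Submonoid.closure (orb h w N)) : Closed h w N := by
  intro k
  induction k using Nat.strong_induction_on with
  | _ k ih =>
    rcases lt_or_ge k N with hk | hk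
    · exact Submonoid.subset_closure ⟨k, hk, rfl⟩
    · -- apply h^(k - N) to the formula
      have h1 : Submonoid.closure (orb h w N) ≤
          (Submonoid.closure (orb h w N)).comap (itHom h (k - N)) := by
        rw [Submonoid.closure_le]
        rintro x ⟨i, hi, rfl⟩
        rw [SetLike.mem_coe, Submonoid.mem_comap, itHom_apply, ← Function.iterate_add_apply]
        exact ih _ (by omega)
      have h2 := h1 hN
      rw [Submonoid.mem_comap, itHom_apply, ← Function.iterate_add_apply,
        Nat.sub_add_cancel hk] at h2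
      exact h2

theorem iterate_comm {β : Type*} {h : FreeMonoid α →* FreeMonoid α}
    {φ : FreeMonoid β →* FreeMonoid α} {g : FreeMonoid β →* FreeMonoid β}
    (hc : ∀ u, φ (g u) = h (φ u)) (k : ℕ) (u : FreeMonoid β) : φ (g^[k] u) = h^[k] (φ u) := by
  induction k generalizing u with
  | zero => rfl
  | succ k ih => rw [Function.iterate_succ_apply, Function.iterate_succ_apply, ih, hc]

theorem image_orb {β : Type*} {h : FreeMonoid α →* FreeMonoid α}
    {φ : FreeMonoid β →* FreeMonoid α} {g : FreeMonoid β →* FreeMonoid β}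
    (hc : ∀ u, φ (g u) = h (φ u)) (v : FreeMonoid β) (N : ℕ) :
    φ '' (orb g v N) = orb h (φ v) N := by
  ext x
  constructor
  · rintro ⟨y, ⟨i, hi, rfl⟩, rfl⟩
    exact ⟨i, hi, iterate_comm hc i v⟩
  · rintro ⟨i, hi, rfl⟩
    exact ⟨g^[i] v, ⟨i, hi, rfl⟩, iterate_comm hc i v⟩

/-- Closedness is invariant under recoding by an injective morphism. -/
theorem closed_iff {β : Type*} {h : FreeMonoid α →* FreeMonoid α}
    {φ : FreeMonoid β →* FreeMonoid α} {g : FreeMonoid β →* FreeMonoid β}
    (hφ : Function.Injective φ) (hc : ∀ u, φ (g u) = h (φ u)) (v : FreeMonoid β) (N : ℕ) :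
    Closed g v N ↔ Closed h (φ v) N := by
  have hcl : (Submonoid.closure (orb g v N)).map φ = Submonoid.closure (orb h (φ v) N) := by
    rw [MonoidHom.map_mclosure, image_orb hc]
  constructor
  · intro H k
    rw [← iterate_comm hc, ← hcl]
    exact Submonoid.mem_map_of_mem φ (H k)
  · intro H k
    have h1 := H k
    rw [← iterate_comm hc, ← hcl, Submonoid.mem_map] at h1
    obtain ⟨y, hy, hy'⟩ := h1
    rwa [← hφ hy']

/-- Recoding over the base of the free hull. -/
theorem recode (h : FreeMonoid α →* FreeMonoid α) (w : FreeMonoid α) (N : ℕ)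
    (hcl : Closed h w N) :
    ∃ (n : ℕ) (φ : FreeMonoid (Fin n) →* FreeMonoid α)
      (g : FreeMonoid (Fin n) →* FreeMonoid (Fin n)) (v : FreeMonoid (Fin n)),
      Function.Injective φ ∧ (∀ u, φ (g u) = h (φ u)) ∧ φ v = w ∧ Closed g v N ∧
      hull (orb g v N) = ⊤ ∧ n ≤ N := by
  classical
  set X := orb h w N with hX
  set D := hull X with hD
  have hDst : Stable D := stable_hull X
  -- the atoms are finitely many
  have hsel : ∀ b : {b : FreeMonoid α // Atom D b}, ∃ i : Fin N, ∃ s ∈ D, h^[i] w = b.1 * s := by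
    intro b
    obtain ⟨x, ⟨i, hi, rfl⟩, s, hs, hxs⟩ := hull_atom_left b.2
    exact ⟨⟨i, hi⟩, s, hs, hxs⟩
  choose sel hsel' using hsel
  have hselinj : Function.Injective sel := by
    intro b c hbc
    obtain ⟨s, hs, hs'⟩ := hsel' b
    obtain ⟨t, ht, ht'⟩ := hsel' c
    rw [hbc] at hs'
    exact Subtype.ext (atom_left_unique hDst b.2 c.2 hs ht (hs'.symm.trans ht'))
  have hfin : Finite {b : FreeMonoid α // Atom D b} := Finite.of_injective sel hselinj
  let inst : Fintype {b : FreeMonoid α // Atom D b} := Fintype.ofFinite _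
  let n := Fintype.card {b : FreeMonoid α // Atom D b}
  let e : {b : FreeMonoid α // Atom D b} ≃ Fin n := Fintype.equivFin _
  have hnN : n ≤ N := by
    have := Fintype.card_le_of_injective sel hselinj
    simpa using this
  let φ : FreeMonoid (Fin n) →* FreeMonoid α := (atomHom D).comp (FreeMonoid.map e.symm)
  have hφinj : Function.Injective φ := by
    have h1 : Function.Injective (FreeMonoid.map e.symm) := by
      intro u v huv
      have h2 := congrArg (FreeMonoid.map e) huv
      have h3 : ∀ u : FreeMonoid (Fin n), FreeMonoid.map e (FreeMonoid.map e.symm u) = u := by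
        intro u
        have : (FreeMonoid.map e).comp (FreeMonoid.map e.symm) = MonoidHom.id _ := by
          apply FreeMonoid.hom_eq
          intro x
          simp
        exact DFunLike.congr_fun this u
      rwa [h3, h3] at h2
    exact (atomHom_injective hDst).comp h1
  have hφmem : ∀ u, φ u ∈ D := fun u => atomHom_mem D _
  have hφsurj : ∀ u ∈ D, ∃ v, φ v = u := by
    intro u hu
    obtain ⟨v, hv⟩ := atomHom_surj D hu
    refine ⟨FreeMonoid.map e v, ?_⟩
    have : (FreeMonoid.map e.symm).comp (FreeMonoid.map e) = MonoidHom.id _ := by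
      apply FreeMonoid.hom_eq
      intro x
      simp
    have h2 := DFunLike.congr_fun this v
    change atomHom D (((FreeMonoid.map e.symm).comp (FreeMonoid.map e)) v) = u
    rw [h2]
    exact hv
  have hXD : ∀ k, h^[k] w ∈ D := fun k => closure_le_hull X (hcl k)
  have hhD : ∀ u ∈ D, h u ∈ D := by
    intro u hu
    apply map_hull_le h _ hu
    rintro x ⟨i, _, rfl⟩
    rw [← Function.iterate_succ_apply' h]
    exact hXD (i + 1)
  choose g0 hg0 using fun a : Fin n => hφsurj _ (hhD _ (hφmem (FreeMonoid.of a)))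
  let g : FreeMonoid (Fin n) →* FreeMonoid (Fin n) := FreeMonoid.lift g0
  have hcomm : ∀ u, φ (g u) = h (φ u) := by
    intro u
    have : φ.comp g = h.comp φ := by
      apply FreeMonoid.hom_eq
      intro x
      simp only [MonoidHom.comp_apply, g, FreeMonoid.lift_eval_of]
      exact hg0 x
    exact DFunLike.congr_fun this u
  obtain ⟨v, hv⟩ := hφsurj w (hXD 0)
  have hcl' : Closed g v N := by
    rw [closed_iff hφinj hcomm, hv]
    exact hcl
  refine ⟨n, φ, g, v, hφinj, hcomm, hv, hcl', ?_, hnN⟩
  -- the hull of the recoded words is everything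
  rw [eq_top_iff]
  intro u _
  rw [hull, Submonoid.mem_sInf]
  rintro S' ⟨hS'X, hS'st⟩
  have hmapst : Stable (S'.map φ) := by
    rintro a b c ha hb hac hcb
    rw [Submonoid.mem_map] at ha hb hac hcb
    obtain ⟨a', ha', rfl⟩ := ha
    obtain ⟨b', hb', rfl⟩ := hb
    obtain ⟨s, hs, hs'⟩ := hac
    obtain ⟨t, ht, ht'⟩ := hcb
    have hc : c ∈ D := hDst _ _ c (hφmem a') (hφmem b') (hs' ▸ hφmem s) (ht' ▸ hφmem t)
    obtain ⟨c', rfl⟩ := hφsurj c hc
    rw [← map_mul] at hs' ht'
    have e1 := hφinj hs'
    have e2 := hφinj ht'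
    refine Submonoid.mem_map_of_mem φ ?_
    exact hS'st a' b' c' ha' hb' (e1 ▸ hs) (e2 ▸ ht)
  have hsub : X ⊆ S'.map φ := by
    have h3 : orb h w N = φ '' (orb g v N) := by
      rw [image_orb hcomm, hv]
    rw [hX, h3]
    rintro x ⟨y, hy, rfl⟩
    exact Submonoid.mem_map_of_mem φ (hS'X hy)
  have h4 : D ≤ S'.map φ := hull_le hsub hmapst
  have h5 := h4 (hφmem u)
  rw [Submonoid.mem_map] at h5
  obtain ⟨u', hu', he⟩ := h5
  rwa [← hφinj he]

end

section letters

variable {β : Type*}

theorem atom_top_of (a : β) : Atom (⊤ : Submonoid (FreeMonoid β)) (FreeMonoid.of a) := by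
  refine ⟨Submonoid.mem_top _, FreeMonoid.of_ne_one a, ?_⟩
  intro u v _ _ huv
  have h1 := congrArg FreeMonoid.length huv
  rw [FreeMonoid.length_mul, FreeMonoid.length_of] at h1
  rcases Nat.eq_zero_or_pos u.length with h2 | h2
  · left
    exact FreeMonoid.length_eq_zero.1 h2
  · right
    exact FreeMonoid.length_eq_zero.1 (by omega)

theorem exists_first {u : FreeMonoid β} (hu : u ≠ 1) : ∃ a s, u = FreeMonoid.of a * s := by
  induction u using FreeMonoid.inductionOn' with
  | one => exact absurd rfl hu
  | of_mul a s _ => exact ⟨a, s, rfl⟩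

theorem exists_last {u : FreeMonoid β} (hu : u ≠ 1) : ∃ a s, u = s * FreeMonoid.of a := by
  induction u using FreeMonoid.inductionOn' with
  | one => exact absurd rfl hu
  | of_mul a s ih =>
    by_cases hs : s = 1
    · exact ⟨a, 1, by rw [hs]; simp⟩
    · obtain ⟨b, t, hbt⟩ := ih hs
      exact ⟨b, FreeMonoid.of a * t, by rw [hbt, mul_assoc]⟩

theorem first_unique {a b : β} {s t : FreeMonoid β}
    (h : FreeMonoid.of a * s = FreeMonoid.of b * t) : a = b := by
  have h1 := congrArg FreeMonoid.toList h
  simp only [FreeMonoid.toList_of_mul] at h1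
  exact (List.cons.inj h1).1

theorem last_unique {a b : β} {s t : FreeMonoid β}
    (h : s * FreeMonoid.of a = t * FreeMonoid.of b) : a = b := by
  have h1 := congrArg FreeMonoid.toList h
  simp only [FreeMonoid.toList_mul, FreeMonoid.toList_of] at h1
  have h2 := List.append_inj' h1 rfl
  simpa using h2.2

/-- A map with a cyclic point: the first `card` points of the orbit are all points. -/
theorem orbit_bij [Fintype β] (f : β → β) (a : β) (hf : ∀ b, ∃ i, b = f^[i] a) :
    Function.Bijective (fun i : Fin (Fintype.card β) => f^[(i : ℕ)] a) := by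
  classical
  rw [Fintype.bijective_iff_injective_and_card]
  refine ⟨?_, by simp⟩
  have main : ∀ i j : ℕ, i < j → j < Fintype.card β → f^[i] a = f^[j] a → False := by
    intro i j hij hj hfij
    have hcov : ∀ k, ∃ l < j, f^[k] a = f^[l] a := by
      intro k
      induction k using Nat.strong_induction_on with
      | _ k ih =>
        rcases lt_or_ge k j with hk | hk
        · exact ⟨k, hk, rfl⟩
        · obtain ⟨l, hl, hl'⟩ := ih (k - j + i) (by omega)
          refine ⟨l, hl, ?_⟩
          rw [← hl', Function.iterate_add_apply, hfij, ← Function.iterate_add_apply,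
            Nat.sub_add_cancel hk]
    have hsurj : Function.Surjective (fun l : Fin j => f^[(l : ℕ)] a) := by
      intro b
      obtain ⟨k, hk⟩ := hf b
      obtain ⟨l, hl, hl'⟩ := hcov k
      exact ⟨⟨l, hl⟩, by rw [hk, hl']⟩
    have := Fintype.card_le_of_surjective _ hsurj
    simp at this
    omega
  intro i j hij
  simp only at hij
  rcases lt_trichotomy (i : ℕ) (j : ℕ) with h | h | h
  · exact (main i j h j.2 hij).elim
  · exact Fin.ext h
  · exact (main j i h i.2 hij.symm).elim

theorem ne_one_of_injective {α : Type*} {g : FreeMonoid β →* FreeMonoid α}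
    (hg : Function.Injective g) {u : FreeMonoid β} (hu : u ≠ 1) : g u ≠ 1 := by
  intro h
  apply hu
  apply hg
  rw [h, map_one]

/-- First letters: if the hull is everything, the words `v_0, ..., v_(n-1)` begin with the `n`
different letters. -/
theorem first_letters {n N : ℕ} {g : FreeMonoid (Fin n) →* FreeMonoid (Fin n)}
    {v : FreeMonoid (Fin n)} (hg : Function.Injective g) (hv : v ≠ 1)
    (hull_top : hull (orb g v N) = ⊤) :
    ∃ f : Fin n → Fin n, Function.Bijective f ∧
      ∀ i : Fin n, ∃ s, g^[(i : ℕ)] v = FreeMonoid.of (f i) * s := by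
  classical
  -- first letter map
  choose fl ft hfl using fun a : Fin n => exists_first (ne_one_of_injective hg
    (FreeMonoid.of_ne_one a))
  obtain ⟨a0, s0, hs0⟩ := exists_first hv
  have hit : ∀ i, ∃ s, g^[i] v = FreeMonoid.of (fl^[i] a0) * s := by
    intro i
    induction i with
    | zero => exact ⟨s0, hs0⟩
    | succ i ih =>
      obtain ⟨s, hs⟩ := ih
      refine ⟨ft (fl^[i] a0) * g s, ?_⟩
      rw [Function.iterate_succ_apply' g, hs, map_mul, hfl, Function.iterate_succ_apply' fl,
        mul_assoc]
  have hcov : ∀ b, ∃ i, b = fl^[i] a0 := by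
    intro b
    have hb : Atom (hull (orb g v N)) (FreeMonoid.of b) := by
      rw [hull_top]
      exact atom_top_of b
    obtain ⟨x, ⟨i, _, rfl⟩, s, _, hxs⟩ := hull_atom_left hb
    obtain ⟨t, ht⟩ := hit i
    exact ⟨i, first_unique (hxs.symm.trans ht)⟩
  have hbij := orbit_bij fl a0 hcov
  rw [Fintype.card_fin] at hbij
  exact ⟨fun i => fl^[(i : ℕ)] a0, hbij, fun i => hit i⟩

/-- Last letters. -/
theorem last_letters {n N : ℕ} {g : FreeMonoid (Fin n) →* FreeMonoid (Fin n)}
    {v : FreeMonoid (Fin n)} (hg : Function.Injective g) (hv : v ≠ 1)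
    (hull_top : hull (orb g v N) = ⊤) :
    ∃ f : Fin n → Fin n, Function.Bijective f ∧
      ∀ i : Fin n, ∃ s, g^[(i : ℕ)] v = s * FreeMonoid.of (f i) := by
  classical
  choose fl ft hfl using fun a : Fin n => exists_last (ne_one_of_injective hg
    (FreeMonoid.of_ne_one a))
  obtain ⟨a0, s0, hs0⟩ := exists_last hv
  have hit : ∀ i, ∃ s, g^[i] v = s * FreeMonoid.of (fl^[i] a0) := by
    intro i
    induction i with
    | zero => exact ⟨s0, hs0⟩
    | succ i ih =>
      obtain ⟨s, hs⟩ := ih
      refine ⟨g s * ft (fl^[i] a0), ?_⟩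
      rw [Function.iterate_succ_apply' g, hs, map_mul, hfl, Function.iterate_succ_apply' fl,
        mul_assoc]
  have hcov : ∀ b, ∃ i, b = fl^[i] a0 := by
    intro b
    have hb : Atom (hull (orb g v N)) (FreeMonoid.of b) := by
      rw [hull_top]
      exact atom_top_of b
    obtain ⟨x, ⟨i, _, rfl⟩, s, _, hxs⟩ := hull_atom_right hb
    obtain ⟨t, ht⟩ := hit i
    exact ⟨i, last_unique (hxs.symm.trans ht)⟩
  have hbij := orbit_bij fl a0 hcov
  rw [Fintype.card_fin] at hbij
  exact ⟨fun i => fl^[(i : ℕ)] a0, hbij, fun i => hit i⟩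

end letters

end Pool.MP374W
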