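import Mathlib
import Pool.Agent.H.MP_374efc_lc.Words.Recode

set_option autoImplicit false

/-!
# Commutative images: `v_0, ..., v_(n-1)` are a basis (part D3)
-/

namespace Pool.MP374W

open Matrix

/-- The vector of letter numbers, with integer entries. -/
def vec {n : ℕ} (u : FreeMonoid (Fin n)) : Fin n → ℤ := fun a => (u.toList.count a : ℤ)

@[simp] theorem vec_one {n : ℕ} : vec (1 : FreeMonoid (Fin n)) = 0 := by
  funext a
  simp [vec]

@[simp] theorem vec_mul {n : ℕ} (u v : FreeMonoid (Fin n)) : vec (u * v) = vec u + vec v := by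
  funext a
  simp [vec]

theorem vec_of {n : ℕ} (b : Fin n) : vec (FreeMonoid.of b) = Pi.single b 1 := by
  funext a
  simp only [vec, FreeMonoid.toList_of, Pi.single_apply]
  by_cases h : a = b
  · subst h
    simp
  · rw [if_neg h, List.count_eq_zero_of_not_mem]
    · simp
    · simpa using h

/-- The vector as a morphism to a multiplicative group. -/
def vecHom (n : ℕ) : FreeMonoid (Fin n) →* Multiplicative (Fin n → ℤ) where
  toFun u := Multiplicative.ofAdd (vec u)
  map_one' := by rw [vec_one]; rfl
  map_mul' u v := by rw [vec_mul]; rfl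

/-- The matrix of a morphism: column `b` is the vector of `g b`. -/
def mat {n : ℕ} (g : FreeMonoid (Fin n) →* FreeMonoid (Fin n)) : Matrix (Fin n) (Fin n) ℤ :=
  Matrix.of fun a b => vec (g (FreeMonoid.of b)) a

theorem vec_map {n : ℕ} (g : FreeMonoid (Fin n) →* FreeMonoid (Fin n)) (u : FreeMonoid (Fin n)) :
    vec (g u) = (mat g) *ᵥ (vec u) := by
  induction u using FreeMonoid.inductionOn' with
  | one => simp
  | of_mul b u ih =>
    rw [map_mul, vec_mul, vec_mul, Matrix.mulVec_add, ih, vec_of, Matrix.mulVec_single_one]
    rfl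

theorem vec_iterate {n : ℕ} (g : FreeMonoid (Fin n) →* FreeMonoid (Fin n))
    (v : FreeMonoid (Fin n)) (k : ℕ) : vec (g^[k] v) = (mat g ^ k) *ᵥ (vec v) := by
  induction k with
  | zero => simp
  | succ k ih =>
    rw [Function.iterate_succ_apply', vec_map, ih, Matrix.mulVec_mulVec, pow_succ']

/-- Cayley-Hamilton: the span of the first `n` vectors contains all of them. -/
theorem vec_mem_span {n : ℕ} (g : FreeMonoid (Fin n) →* FreeMonoid (Fin n))
    (v : FreeMonoid (Fin n)) (k : ℕ) :
    vec (g^[k] v) ∈ Submodule.span ℤ (Set.range fun i : Fin n => vec (g^[(i : ℕ)] v)) := by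
  induction k using Nat.strong_induction_on with
  | _ k ih =>
    rcases lt_or_ge k n with hk | hk
    · exact Submodule.subset_span ⟨⟨k, hk⟩, rfl⟩
    · have hdeg : (mat g).charpoly.natDegree = n := by
        rw [Matrix.charpoly_natDegree_eq_dim, Fintype.card_fin]
      have hlead : (mat g).charpoly.coeff n = 1 := by
        have := (Matrix.charpoly_monic (mat g)).coeff_natDegree
        rwa [hdeg] at this
      have h1 := Matrix.aeval_self_charpoly (mat g)
      rw [Polynomial.aeval_eq_sum_range, hdeg, Finset.sum_range_succ, hlead, one_smul] at h1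
      have h2 : mat g ^ n = -∑ i ∈ Finset.range n, (mat g).charpoly.coeff i • mat g ^ i := by
        rw [eq_neg_iff_add_eq_zero, add_comm]
        exact h1
      have h3 : vec (g^[k] v) =
          -∑ i ∈ Finset.range n, (mat g).charpoly.coeff i • vec (g^[i + (k - n)] v) := by
        have hk' : k = n + (k - n) := by omega
        conv_lhs => rw [hk']
        rw [vec_iterate, pow_add, h2, neg_mul, Matrix.neg_mulVec, Finset.sum_mul,
          Matrix.sum_mulVec]
        congr 1
        apply Finset.sum_congr rfl
        intro i _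
        rw [smul_mul_assoc, ← pow_add, Matrix.smul_mulVec, vec_iterate]
      rw [h3]
      apply Submodule.neg_mem
      apply Submodule.sum_mem
      intro i hi
      apply Submodule.smul_mem
      apply ih
      rw [Finset.mem_range] at hi
      omega

/-- If the hull is everything, the vectors of `v_0, ..., v_(n-1)` span. -/
theorem span_eq_top {n N : ℕ} (g : FreeMonoid (Fin n) →* FreeMonoid (Fin n))
    (v : FreeMonoid (Fin n)) (hull_top : hull (orb g v N) = ⊤) :
    Submodule.span ℤ (Set.range fun i : Fin n => vec (g^[(i : ℕ)] v)) = ⊤ := by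
  set S := Submodule.span ℤ (Set.range fun i : Fin n => vec (g^[(i : ℕ)] v)) with hS
  -- the submonoid of all words with vector in `S` is stable
  let K : Submonoid (FreeMonoid (Fin n)) :=
    { carrier := {u | vec u ∈ S}
      one_mem' := by
        change vec 1 ∈ S
        rw [vec_one]
        exact S.zero_mem
      mul_mem' := by
        intro a b ha hb
        change vec (a * b) ∈ S
        rw [vec_mul]
        exact S.add_mem ha hb }
  have hK : Stable K := by
    intro a b c ha _ hac _
    change vec c ∈ S
    have h1 : vec (a * c) ∈ S := hac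
    rw [vec_mul] at h1
    have h2 : vec a ∈ S := ha
    exact (S.add_mem_iff_right h2).1 h1
  have hX : orb g v N ⊆ K := by
    rintro x ⟨i, _, rfl⟩
    exact vec_mem_span g v i
  have hle := hull_le hX hK
  rw [hull_top] at hle
  rw [eq_top_iff]
  intro x _
  have hx : x = ∑ a, x a • (Pi.single a 1 : Fin n → ℤ) := by
    funext b
    simp [Finset.sum_apply, Pi.single_apply]
  rw [hx]
  apply S.sum_mem
  intro a _
  apply S.smul_mem
  rw [← vec_of]
  exact hle (Submonoid.mem_top (FreeMonoid.of a))

/-- The matrix with rows `vec v_0, ..., vec v_(n-1)` is unimodular. -/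
theorem isUnit_det {n N : ℕ} (g : FreeMonoid (Fin n) →* FreeMonoid (Fin n))
    (v : FreeMonoid (Fin n)) (hull_top : hull (orb g v N) = ⊤) :
    IsUnit (Matrix.of fun (i : Fin n) (a : Fin n) => vec (g^[(i : ℕ)] v) a).det := by
  set P := Matrix.of fun (i : Fin n) (a : Fin n) => vec (g^[(i : ℕ)] v) a with hP
  have hspan := span_eq_top g v hull_top
  have hex : ∀ a : Fin n, ∃ c : Fin n → ℤ, ∑ i, c i • vec (g^[(i : ℕ)] v) = Pi.single a 1 := by
    intro a
    have : (Pi.single a 1 : Fin n → ℤ) ∈
        Submodule.span ℤ (Set.range fun i : Fin n => vec (g^[(i : ℕ)] v)) := by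
      rw [hspan]
      exact Submodule.mem_top
    exact (Submodule.mem_span_range_iff_exists_fun ℤ).1 this
  choose c hc using hex
  have h1 : (Matrix.of c) * P = 1 := by
    ext a b
    rw [Matrix.mul_apply]
    have h2 := congrFun (hc a) b
    rw [Finset.sum_apply] at h2
    simp only [Pi.smul_apply, smul_eq_mul] at h2
    rw [Matrix.one_apply]
    simp only [hP, Matrix.of_apply]
    rw [h2, Pi.single_apply]
    by_cases hab : a = b
    · simp [hab]
    · rw [if_neg hab, if_neg (Ne.symm hab)]
  exact Matrix.isUnit_det_of_left_inverse h1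

end Pool.MP374W
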