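import Mathlib
import Pool.Agent.H.MP_374efc_lc.Words.Basis

set_option autoImplicit false

/-!
# The normal form of a locally catenative system with injective morphism (part D3)
-/

namespace Pool.MP374W

variable {α : Type*}

/-- The normal form (the hypothesis (H) of the notes). -/
structure NormalForm {n : ℕ} (g : FreeMonoid (Fin n) →* FreeMonoid (Fin n))
    (v : FreeMonoid (Fin n)) (N : ℕ) : Prop where
  inj : Function.Injective g
  ne_one : v ≠ 1
  closed : Closed g v N
  hull_top : hull (orb g v N) = ⊤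
  le : n ≤ N
  first : ∃ f : Fin n → Fin n, Function.Bijective f ∧
      ∀ i : Fin n, ∃ s, g^[(i : ℕ)] v = FreeMonoid.of (f i) * s
  last : ∃ f : Fin n → Fin n, Function.Bijective f ∧
      ∀ i : Fin n, ∃ s, g^[(i : ℕ)] v = s * FreeMonoid.of (f i)
  unit : IsUnit (Matrix.of fun (i : Fin n) (a : Fin n) => vec (g^[(i : ℕ)] v) a).det

/-- Recoding to the normal form. -/
theorem normal_form (h : FreeMonoid α →* FreeMonoid α) (hinj : Function.Injective h)
    (w : FreeMonoid α) (hw : w ≠ 1) (N : ℕ) (hcl : Closed h w N) :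
    ∃ (n : ℕ) (φ : FreeMonoid (Fin n) →* FreeMonoid α)
      (g : FreeMonoid (Fin n) →* FreeMonoid (Fin n)) (v : FreeMonoid (Fin n)),
      Function.Injective φ ∧ (∀ u, φ (g u) = h (φ u)) ∧ φ v = w ∧ NormalForm g v N := by
  obtain ⟨n, φ, g, v, hφ, hc, hv, hcl', htop, hnN⟩ := recode h w N hcl
  have hg : Function.Injective g := by
    intro a b hab
    apply hφ
    apply hinj
    rw [← hc, ← hc, hab]
  have hv1 : v ≠ 1 := by
    intro h1
    apply hw
    rw [← hv, h1, map_one]
  exact ⟨n, φ, g, v, hφ, hc, hv, hg, hv1, hcl', htop, hnN, first_letters hg hv1 htop,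
    last_letters hg hv1 htop, isUnit_det g v htop⟩

/-- If all of `v_0, ..., v_(n-1)` are letters, then the original words `w_0, ..., w_(N-1)`
(`N` least) are a code, and `N = n`. -/
theorem code_of_letters {n : ℕ} {h : FreeMonoid α →* FreeMonoid α}
    {φ : FreeMonoid (Fin n) →* FreeMonoid α} {g : FreeMonoid (Fin n) →* FreeMonoid (Fin n)}
    {v : FreeMonoid (Fin n)} {N : ℕ} (hφ : Function.Injective φ) (hc : ∀ u, φ (g u) = h (φ u))
    (hnf : NormalForm g v N) (hlet : ∀ i : Fin n, (g^[(i : ℕ)] v).length = 1)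
    (hleast : ∀ N', Closed h (φ v) N' → N ≤ N') :
    N = n ∧ Function.Injective
      (FreeMonoid.lift (fun i : Fin N => h^[(i : ℕ)] (φ v)) :
        FreeMonoid (Fin N) →* FreeMonoid α) := by
  obtain ⟨f, hf, hf'⟩ := hnf.first
  have hof : ∀ i : Fin n, g^[(i : ℕ)] v = FreeMonoid.of (f i) := by
    intro i
    obtain ⟨s, hs⟩ := hf' i
    have h1 := hlet i
    rw [hs, FreeMonoid.length_mul, FreeMonoid.length_of] at h1
    have h2 : s = 1 := FreeMonoid.length_eq_zero.1 (by omega)
    rw [hs, h2, mul_one]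
  have hcln : Closed g v n := by
    intro k
    have hall : ∀ u : FreeMonoid (Fin n), u ∈ Submonoid.closure (orb g v n) := by
      intro u
      induction u using FreeMonoid.inductionOn' with
      | one => exact Submonoid.one_mem _
      | of_mul a u ih =>
        apply Submonoid.mul_mem _ _ ih
        obtain ⟨i, hi⟩ := hf.2 a
        apply Submonoid.subset_closure
        exact ⟨i, i.2, by rw [hof i, hi]⟩
    exact hall _
  have hN : N = n := le_antisymm (hleast n ((closed_iff hφ hc v n).1 hcln)) hnf.le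
  refine ⟨hN, ?_⟩
  subst hN
  have heq : (FreeMonoid.lift (fun i : Fin N => h^[(i : ℕ)] (φ v)) :
      FreeMonoid (Fin N) →* FreeMonoid α) = φ.comp (FreeMonoid.map f) := by
    apply FreeMonoid.hom_eq
    intro i
    rw [FreeMonoid.lift_eval_of, MonoidHom.comp_apply, FreeMonoid.map_of, ← hof i,
      iterate_comm hc]
  rw [heq]
  apply hφ.comp
  let e : Fin N ≃ Fin N := Equiv.ofBijective f hf
  have hid : (FreeMonoid.map e.symm).comp (FreeMonoid.map f) = MonoidHom.id _ := by
    apply FreeMonoid.hom_eq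
    intro x
    rw [MonoidHom.comp_apply, FreeMonoid.map_of, FreeMonoid.map_of, MonoidHom.id_apply]
    congr 1
    exact e.symm_apply_apply x
  intro a b hab
  have h1 := congrArg (FreeMonoid.map e.symm) hab
  have h2 : ∀ u, FreeMonoid.map e.symm (FreeMonoid.map f u) = u := fun u =>
    DFunLike.congr_fun hid u
  rwa [h2, h2] at h1

end Pool.MP374W
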